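import Pool.Agent.H38.PWS.Stmts

set_option autoImplicit false

namespace Pool.PWS

open ArithmeticFunction Finset Pool.MKP

private lemma pth_stp_mem {n : ℕ} (hn : 1 ≤ n) {j v z : ℕ} (h : Stp n j v z) :
    z ∈ (it (j + 1) n).primeFactors := by
  obtain ⟨hv, hz, hd⟩ := h
  have hpos : 0 < it j n := it_pos hn j
  have hd2 : z ∣ it (j + 1) n := by
    rw [it_succ, sigma_prod hpos.ne']
    exact hd.trans (Finset.dvd_prod_of_mem _ hv)
  exact Nat.mem_primeFactors.2 ⟨hz, hd2, (it_pos hn (j + 1)).ne'⟩

private lemma pth_ends {n : ℕ} (hn : 1 ≤ n) {i w j z : ℕ} (h : Pp n i w j z) :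
    w ∈ (it i n).primeFactors ∧ z ∈ (it j n).primeFactors ∧ i ≤ j := by
  induction h with
  | refl h => exact ⟨h, h, le_rfl⟩
  | snoc _ hs ih => exact ⟨ih.1, pth_stp_mem hn hs, by omega⟩

private lemma pth_out {n : ℕ} (m : ℕ) {j v z : ℕ} (h : Stp n j v z) :
    (nx m j, z) ∈ out m (j, v) (val n (j, v)) := by
  obtain ⟨hv, hz, hd⟩ := h
  unfold out val
  rw [Finset.mem_image]
  refine ⟨z, Nat.mem_primeFactors.2 ⟨hz, hd, ?_⟩, rfl⟩
  have hvp : 0 < v := (Nat.prime_of_mem_primeFactors hv).pos
  exact (sigma_pos' (pow_pos hvp _)).ne'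

theorem PTH : PTHStmt := by
  intro n hn
  refine ⟨fun i w j z h => pth_ends hn h, ?_, ?_, ?_⟩
  · intro j
    induction j with
    | zero =>
      intro z hz
      have hz' : z ∈ n.primeFactors := by simpa [it_zero] using hz
      exact ⟨z, hz', Pp.refl hz⟩
    | succ j ih =>
      intro z hz
      have hzp := Nat.prime_of_mem_primeFactors hz
      have hzd := Nat.dvd_of_mem_primeFactors hz
      rw [it_succ] at hzd
      obtain ⟨s, hs, hsd⟩ := prime_dvd_sigma (it_pos hn j).ne' hzp hzd
      obtain ⟨r, hr, hp⟩ := ih s hs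
      exact ⟨r, hr, Pp.snoc hp ⟨hs, hzp, hsd⟩⟩
  · intro i w j v k z h1 h2
    induction h2 with
    | refl _ => exact h1
    | snoc _ hs ih => exact Pp.snoc ih hs
  · intro m G i w z him hp hR
    have key : ∀ j v : ℕ, Pp n i w j v → j < m → Rch m n G (j, v) := by
      intro j v h
      induction h with
      | refl _ => intro _; exact hR
      | @snoc j v z _ hs ih =>
        intro hj
        have h1 := ih (by omega)
        have h2 := pth_out m hs
        have h3 : nx m j = j + 1 := by
          unfold nx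
          rw [if_neg (by omega)]
        rw [h3] at h2
        exact Rch.step h1 h2
    cases hp with
    | refl _ => exact absurd him (lt_irrefl _)
    | @snoc j v _ h1 hs =>
      have h2 := key j v h1 (by omega)
      have h3 := pth_out (j + 1) hs
      have h4 : nx (j + 1) j = 0 := by
        unfold nx
        rw [if_pos rfl]
      rw [h4] at h3
      exact Rch.step h2 h3

end Pool.PWS
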